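import Pool.Agent.W5h31.AE.AE3
import Pool.Agent.R498.MP.PA14

/-!
The arguments with a given set of prime slots. The proofs are those of `Pool.Agent.R498.MP.PA12` and
`Pool.Agent.R498.MP.PA13` (starting files).
-/

set_option autoImplicit false
set_option linter.unusedSectionVars false

namespace Pool.Agent.W5h31.AE

open Finset Filter Polynomial
open Pool.Agent.R498.MT Pool.Agent.R498.MP
open Pool.Agent.Y677.RSZ (rt Sys rhoT per_mod ev_log V eng_all)
open Pool.Agent.TH423.SH (PS PIj)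
open Pool.Agent.W23.DC
open Pool.Agent.Y882
open Pool.Agent.Y882.PX
open Pool.Agent.Y882.KW

open Classical in
/-- the exact set of the slots -/
theorem pigI (n : ℕ) (Q : Finset (Fin n) → Prop) (A : Finset ℕ) (I : ℕ → Finset (Fin n))
    (hA : A.Nonempty) (h : ∀ K ∈ A, Q (I K)) : ∃ Hs : Finset (Fin n), Q Hs ∧
      A.card ≤ 2 ^ n * (A.filter (fun K => I K = Hs)).card := by
  by_contra hcon
  push Not at hcon
  obtain ⟨K₀, hK₀⟩ := hA
  have h1 : A.card = ∑ Hs : Finset (Fin n), (A.filter (fun K => I K = Hs)).card :=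
    card_eq_sum_card_fiberwise (fun K _ => mem_univ (I K))
  have h2 : ∀ Hs : Finset (Fin n), (A.filter (fun K => I K = Hs)).card * 2 ^ n ≤ A.card := by
    intro Hs
    by_cases hm : Q Hs
    · have := hcon Hs hm
      rw [mul_comm]
      exact this.le
    · have : A.filter (fun K => I K = Hs) = ∅ := by
        rw [filter_eq_empty_iff]
        intro K hK hKH
        apply hm
        rw [← hKH]
        exact h K hK
      rw [this, card_empty, zero_mul]
      exact Nat.zero_le _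
  have h3 : A.card * 2 ^ n < 2 ^ n * A.card := by
    conv_lhs => rw [h1]
    rw [sum_mul]
    calc ∑ Hs : Finset (Fin n), (A.filter (fun K => I K = Hs)).card * 2 ^ n <
        ∑ _Hs : Finset (Fin n), A.card := by
          apply sum_lt_sum (fun Hs _ => h2 Hs)
          refine ⟨I K₀, mem_univ _, ?_⟩
          rw [mul_comm]
          exact hcon _ (h K₀ hK₀)
      _ = 2 ^ n * A.card := by
          rw [sum_const, card_univ, Fintype.card_finset, Fintype.card_fin, smul_eq_mul]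
  have h4 : A.card * 2 ^ n = 2 ^ n * A.card := mul_comm _ _
  omega

open Classical in
/-- the arguments with a given set of prime slots, and without the other primes -/
theorem manyI (F : ℤ → ℤ) (W b M L z N k m a : ℕ) (ε₁ c V : ℝ) (t : Fin (2 ^ k) → ℕ)
    (I : Finset (Fin (2 ^ k))) (E : Finset ℕ) (β : ℕ → ℕ) (hc : 0 < c) (hV : 0 < V) (hL : (0 : ℝ) < L)
    (hz1 : (z : ℝ) < (N : ℝ) ^ ε₁)
    (hgd : c * (L * V) ≤ ((gpI F N ε₁ W b t I m M L).card : ℝ))
    (hE : ∀ y ∈ E, ∀ s : Finset ℕ, (∀ K ∈ s, K ∈ Ioc M (M + L) ∧ (W * K + β y).Prime ∧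
          ∀ p ∈ PS W z, ∀ i, ¬ (p : ℤ) ∣ F ((W * (K + t i) + b : ℕ) : ℤ)) →
        (s.card : ℝ) ≤ c / (2 * (E.card + 1)) * (L * V)) :
    ∃ (Hs : Finset (Fin (2 ^ k))) (A : Finset ℕ), m < (I ∩ Hs).card ∧
      c / (2 * 2 ^ 2 ^ k) * (L * V) ≤ A.card ∧
      ∀ K ∈ A, K ∈ Ioc M (M + L) ∧ (∀ p : ℕ, p.Prime → (p : ℝ) < (N : ℝ) ^ ε₁ → ∀ i,
          ¬ (p : ℤ) ∣ F ((W * (K + t i) + b : ℕ) : ℤ)) ∧
        (∀ i, (W * (K + t i) + b).Prime ↔ i ∈ Hs) ∧ ∀ y ∈ E, ¬ (W * K + β y).Prime := by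
  have hX : 0 ≤ (L : ℝ) * V := by positivity
  obtain ⟨Gd, hGd⟩ : ∃ Gd, Gd = gpI F N ε₁ W b t I m M L := ⟨_, rfl⟩
  rw [← hGd] at hgd
  have hmem : ∀ K ∈ Gd, K ∈ Ioc M (M + L) ∧ (∀ p : ℕ, p.Prime → (p : ℝ) < (N : ℝ) ^ ε₁ → ∀ i,
      ¬ (p : ℤ) ∣ F ((W * (K + t i) + b : ℕ) : ℤ)) ∧
      m < (I.filter (fun i => (W * (K + t i) + b).Prime)).card := by
    intro K hK
    rw [hGd] at hK
    unfold gpI at hK
    rw [mem_filter] at hK
    refine ⟨hK.1, hK.2.1, ?_⟩
    have h3 := hK.2.2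
    convert h3
  have h1 := discard_sets Gd E (fun y => Gd.filter (fun K => (W * K + β y).Prime)) c (L * V) hX
    hgd (by
    intro y hy
    apply hE y hy
    intro K hK
    have hK' := mem_filter.1 hK
    obtain ⟨g1, g2, -⟩ := hmem K hK'.1
    refine ⟨g1, hK'.2, ?_⟩
    intro p hp i
    unfold PS at hp
    rw [mem_filter, mem_Icc] at hp
    apply g2 p hp.2.1 _ i
    have : (p : ℝ) ≤ z := by exact_mod_cast hp.1.2
    linarith) hc
  obtain ⟨G', hG'⟩ : ∃ G', G' = Gd \ E.biUnion (fun y => Gd.filter (fun K =>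
    (W * K + β y).Prime)) := ⟨_, rfl⟩
  have h1' : c / 2 * (L * V) ≤ (G'.card : ℝ) := by
    rw [hG']
    exact h1
  have hG'2 : ∀ K ∈ G', K ∈ Gd ∧ ∀ y ∈ E, ¬ (W * K + β y).Prime := by
    intro K hK
    have hK := Finset.mem_sdiff.1 (hG' ▸ hK)
    refine ⟨hK.1, fun y hy h => hK.2 ?_⟩
    rw [mem_biUnion]
    exact ⟨y, hy, mem_filter.2 ⟨hK.1, h⟩⟩
  have hpos : 0 < c / 2 * (L * V) := by positivity
  have hne : G'.Nonempty := by
    rw [← card_pos]
    have : (0 : ℝ) < (G'.card : ℝ) := hpos.trans_le h1'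
    exact_mod_cast this
  obtain ⟨Hs, hHs, hle⟩ := pigI (2 ^ k) (fun H => m < (I ∩ H).card) G' (fun K => univ.filter (fun i =>
      (W * (K + t i) + b).Prime)) hne (by
    intro K hK
    have h1 := (hmem K (hG'2 K hK).1).2.2
    have e : I ∩ univ.filter (fun i => (W * (K + t i) + b).Prime) =
        I.filter (fun i => (W * (K + t i) + b).Prime) := by
      ext i
      simp only [mem_inter, mem_filter, mem_univ, true_and]
    show m < (I ∩ univ.filter (fun i => (W * (K + t i) + b).Prime)).card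
    rw [e]
    exact h1)
  refine ⟨Hs, G'.filter (fun K => univ.filter (fun i => (W * (K + t i) + b).Prime) = Hs), hHs,
    ?_, ?_⟩
  · rw [div_mul_eq_mul_div, div_le_iff₀ (by positivity)]
    have h3 : ((G'.card : ℕ) : ℝ) ≤ 2 ^ 2 ^ k *
        ((G'.filter (fun K => univ.filter (fun i => (W * (K + t i) + b).Prime) = Hs)).card : ℝ) := by
      exact_mod_cast hle
    have h4 : c / 2 * (L * V) * 2 = c * (L * V) := by ring
    linarith
  · intro K hK
    rw [mem_filter] at hK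
    have hK1 := hG'2 K hK.1
    obtain ⟨g1, g2, -⟩ := hmem K hK1.1
    refine ⟨g1, g2, fun i => ?_, hK1.2⟩
    rw [← hK.2, mem_filter]
    simp only [mem_univ, true_and]

end Pool.Agent.W5h31.AE
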