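import Pool.Agent.W5h31.AE.AE5

/-!
Narrow progressions of long progressions of almost primes with the same pattern of primes.
-/

set_option autoImplicit false
set_option linter.unusedSectionVars false

namespace Pool.Agent.W5h31.AE

open Finset Filter Polynomial
open Pool.Agent.R498.MT Pool.Agent.R498.MP
open Pool.Agent.Y677.RSZ (rt Sys rhoT per_mod ev_log V eng_all)
open Pool.Agent.TH423.SH (PS PIj)
open Pool.Agent.W23.DC
open Pool.Agent.Y882
open Pool.Agent.Y882.PX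
open Pool.Agent.Y882.KW

/-- **Narrow progressions** in a dense set of patterns. -/
theorem narrow_of (P : ℤ[X]) (hP : P ≠ 0) (g : ℕ) (hF : Sys g (fun n => P.eval n))
    (k W b : ℕ) (hW2 : 2 ≤ W) (hbW : b < W) (hWp : ∀ p : ℕ, p.Prime → p ≤ g * 2 ^ k + 1 → p ∣ W)
    (hb : ∀ p : ℕ, p.Prime → p ∣ W → ¬ (p : ℤ) ∣ P.eval (b : ℤ)) (ε₁ κ : ℝ) (hε : 0 < ε₁)
    (hκ : 0 < κ) (l : ℕ) (hl : 2 ≤ l) :
    ∃ B : ℕ, ∀ᶠ N : ℕ in atTop, ∀ (Hs : Finset (Fin (2 ^ k))) (A : Finset ℕ),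
        κ * ((W * (N / (2 * W)) : ℕ) *
          V (fun n => (PP P W (fun i : Fin (2 ^ k) => (i : ℕ))).eval n) 1 (W * (N / (2 * W)))) ≤ A.card →
        A ⊆ Ioc (W * (N / W) + b) (W * (N / W) + b + W * (N / (2 * W))) →
        (∀ x ∈ A, Pat P W k ε₁ Hs N x ∧ x ≡ b [MOD W]) →
        ∃ x d : ℕ, 1 ≤ d ∧ (d : ℝ) ≤ Real.log N ^ B ∧ ∀ j < l, x + j * d ∈ A := by
  have hW0 : 0 < W := by omega
  obtain ⟨t, ht⟩ : ∃ t : Fin (2 ^ k) → ℕ, t = fun i : Fin (2 ^ k) => (i : ℕ) := ⟨_, rfl⟩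
  obtain ⟨g', hS⟩ := PP_sys P hP g hF W b t hWp hb
  obtain ⟨KP, DP, hKD⟩ := Pool.Agent.W123.RU.Poly.eval_bound (PP P W t)
  obtain ⟨n₀, hn₀⟩ := Pool.Agent.Y677.RSZ.ne_zero_ev (PP P W t) (PP_ne P hP W t)
  obtain ⟨B, H₀, hB⟩ := eng_all l (g' + 4 * (DP + 1)) (ε₁ / 2) κ hl (by positivity) hκ
  refine ⟨B, ?_⟩
  filter_upwards [numsE W 0 b 0 n₀ KP H₀ 0 hW2 hW0] with N hN2 Hs A hA1 hA2 hA3
  obtain ⟨n1, n2, n3, n4, n5, n6, n7, n8, n9, n10⟩ := hN2
  rw [add_zero] at n5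
  obtain ⟨M, hM⟩ : ∃ M : ℕ, M = N / W := ⟨_, rfl⟩
  obtain ⟨L, hL⟩ : ∃ L : ℕ, L = N / (2 * W) := ⟨_, rfl⟩
  rw [← hM, ← hL] at n5
  rw [← hL] at n6 n7 n8 n9
  rw [← hM, ← hL] at hA2
  rw [← hL, ← ht] at hA1
  have hNr : (16 : ℝ) ≤ N := by exact_mod_cast n2
  have hN0 : (0 : ℝ) < N := by linarith
  have hN1r : (1 : ℝ) ≤ N := by linarith
  have hWM : W * M ≤ N := by rw [hM]; exact Nat.mul_div_le _ _
  have hWM1 : N < W * (M + 1) := by
    rw [hM]
    exact Nat.lt_mul_div_succ N hW0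
  have hWM2 : W * (M + 1) = W * M + W := by ring
  have hWL1 : 1 ≤ W * L := by
    have h1 : (1 : ℝ) ≤ ((W * L : ℕ) : ℝ) := le_trans (Real.one_le_rpow hN1r (by norm_num)) n7
    exact_mod_cast h1
  have hWLr : (1 : ℝ) ≤ ((W * L : ℕ) : ℝ) := by exact_mod_cast hWL1
  have hWLN : ((W * L : ℕ) : ℝ) ≤ N := by exact_mod_cast n8
  have hKPr : (KP : ℝ) ≤ N := by exact_mod_cast n4
  obtain ⟨a, d, hd1, hd2, had⟩ := hB (fun n => (PP P W t).eval n) (W * M + b) (W * L)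
    A (Pool.Agent.Y677.RSZ.Sys.mono hS (by omega)) n6
    (by
      intro n hn
      rw [mem_Ioc] at hn
      have hn1 : n ≤ 3 * N + b := by omega
      have hn2 : N ≤ n + W := by omega
      refine ⟨?_, ?_⟩
      · exact hn₀ n (by omega)
      · have h8 := size_P (PP P W t) KP DP N (W * L) hKD (by omega) hKPr n7 n (by
          have : n + 1 ≤ N ^ 2 := by omega
          exact_mod_cast this)
        refine h8.trans ?_
        exact pow_le_pow_right₀ (by exact_mod_cast hWL1) (by omega))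
    hA2
    (by
      intro x hx p hp hpH hdvd
      obtain ⟨hpat, hmod⟩ := hA3 x hx
      have hxe : W * (x / W) + b = x := by
        have h1 : x % W = b := by
          have h2 : x % W = b % W := hmod
          rw [h2, Nat.mod_eq_of_lt hbW]
        have h3 := Nat.div_add_mod x W
        omega
      have hdvd' : (p : ℤ) ∣ (PP P W t).eval ((W * (x / W) + b : ℕ) : ℤ) := by
        rw [hxe]; exact hdvd
      obtain ⟨i, hi⟩ := (PP_dvd P W b t p hp (x / W)).1 hdvd'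
      have e : W * (x / W + t i) + b = x + W * (i : ℕ) := by
        rw [ht]
        have : W * (x / W + (i : ℕ)) + b = W * (x / W) + b + W * (i : ℕ) := by ring
        rw [this, hxe]
      rw [e] at hi
      have h1 := hpat.2.2.1 i p hp hi
      have h2 : ((W * L : ℕ) : ℝ) ^ (ε₁ / 2) < (N : ℝ) ^ ε₁ := by
        calc ((W * L : ℕ) : ℝ) ^ (ε₁ / 2) ≤ (N : ℝ) ^ (ε₁ / 2) :=
              Real.rpow_le_rpow (by positivity) hWLN (by positivity)
          _ < (N : ℝ) ^ ε₁ := Real.rpow_lt_rpow_of_exponent_lt (by linarith) (by linarith)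
      linarith)
    hA1
  refine ⟨a, d, hd1, ?_, had⟩
  refine hd2.trans ?_
  apply pow_le_pow_left₀ (Real.log_nonneg hWLr)
  exact Real.log_le_log (by linarith) hWLN

end Pool.Agent.W5h31.AE
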