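import Mathlib

/-!
Choice of consecutive elements close together, and lattices spanned by them.
-/

set_option autoImplicit false

namespace Pool.Agent.W5h31.AE

open Finset

/-- In a set with more than `2 h m²` elements in the middle half of `[0, X)` some `m + 1` consecutive
elements of the middle half have diameter at most `X / (4 h m)`. -/
theorem choose_run (X m h : ℕ) (hm : 1 ≤ m) (hh : 1 ≤ h) (H : Finset ℕ)
    (hcard : 2 * h * m * m < (H.filter (fun i => X ≤ 4 * i ∧ 4 * i < 3 * X)).card) :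
    ∃ s : ℕ → ℕ, (∀ j ≤ m, s j ∈ H ∧ X ≤ 4 * s j ∧ 4 * s j < 3 * X) ∧
      (∀ j < m, s j < s (j + 1) ∧ ∀ i ∈ H, s j < i → i < s (j + 1) → False) ∧
      4 * h * m * (s m - s 0) ≤ X := by
  obtain ⟨J, hJ⟩ : ∃ J : Finset ℕ, J = H.filter (fun i => X ≤ 4 * i ∧ 4 * i < 3 * X) := ⟨_, rfl⟩
  rw [← hJ] at hcard
  have hmem : ∀ i, i ∈ J ↔ i ∈ H ∧ X ≤ 4 * i ∧ 4 * i < 3 * X := fun i => by rw [hJ, mem_filter]
  obtain ⟨c, hc⟩ : ∃ c, J.card = c := ⟨_, rfl⟩
  rw [hc] at hcard
  obtain ⟨e, he⟩ : ∃ e : Fin c ↪o ℕ, e = J.orderEmbOfFin hc := ⟨_, rfl⟩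
  have heJ : ∀ i, e i ∈ J := fun i => by rw [he]; exact J.orderEmbOfFin_mem hc i
  have hsurj : ∀ i ∈ J, ∃ f, e f = i := by
    intro i hi
    have h1 : i ∈ Set.range (J.orderEmbOfFin hc) := by
      rw [Finset.range_orderEmbOfFin]; exact hi
    obtain ⟨f, hf⟩ := h1
    exact ⟨f, by rw [he]; exact hf⟩
  obtain ⟨E, hE⟩ : ∃ E : ℕ → ℕ, E = fun j => if hj : j < c then e ⟨j, hj⟩ else 0 := ⟨_, rfl⟩
  have hEv : ∀ j (hj : j < c), E j = e ⟨j, hj⟩ := fun j hj => by rw [hE]; simp [hj]
  have hEJ : ∀ j, j < c → E j ∈ J := fun j hj => by rw [hEv j hj]; exact heJ _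
  have hEm : ∀ i j, i < j → j < c → E i < E j := by
    intro i j hij hj
    rw [hEv i (by omega), hEv j hj]
    exact e.strictMono (by simpa using hij)
  have hEn : ∀ j, j + 1 < c → ∀ i ∈ J, E j < i → i < E (j + 1) → False := by
    intro j hj i hi h1 h2
    obtain ⟨f, rfl⟩ := hsurj i hi
    rw [hEv j (by omega)] at h1
    rw [hEv (j + 1) hj] at h2
    have h3 := e.lt_iff_lt.1 h1
    have h4 := e.lt_iff_lt.1 h2
    rw [Fin.lt_def] at h3 h4
    simp only at h3 h4
    omega
  -- a short block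
  have hblock : ∃ r < 2 * h * m, 4 * h * m * (E ((r + 1) * m) - E (r * m)) ≤ X := by
    by_contra hcon
    push Not at hcon
    have hstep : ∀ r, r ≤ 2 * h * m → 4 * h * m * E 0 + r * X ≤ 4 * h * m * E (r * m) := by
      intro r
      induction r with
      | zero => intro _; simp
      | succ r ih =>
        intro hr
        have h1 := ih (by omega)
        have h2 := hcon r (by omega)
        have hlt : (r + 1) * m < c := by
          calc (r + 1) * m ≤ 2 * h * m * m := Nat.mul_le_mul_right _ hr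
            _ < c := hcard
        have hrr : r * m < (r + 1) * m := by
          have : (r + 1) * m = r * m + m := by ring
          omega
        have h3 : E (r * m) ≤ E ((r + 1) * m) := (hEm _ _ hrr hlt).le
        have h4 : 4 * h * m * (E ((r + 1) * m) - E (r * m)) =
            4 * h * m * E ((r + 1) * m) - 4 * h * m * E (r * m) := Nat.mul_sub _ _ _
        rw [h4] at h2
        have h5 : (r + 1) * X = r * X + X := by ring
        rw [h5]
        omega
    have h1 := hstep (2 * h * m) le_rfl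
    have h2 := (hmem _).1 (hEJ 0 (by omega))
    have h3 := (hmem _).1 (hEJ (2 * h * m * m) hcard)
    have h4 : 4 * h * m * E 0 = h * m * (4 * E 0) := by ring
    have h5 : 4 * h * m * E (2 * h * m * m) = h * m * (4 * E (2 * h * m * m)) := by ring
    rw [h4, h5] at h1
    have hhm : 0 < h * m := Nat.mul_pos hh hm
    have h6 : h * m * (4 * E (2 * h * m * m)) < h * m * (3 * X) := Nat.mul_lt_mul_of_pos_left h3.2.2 hhm
    have h7 : h * m * X ≤ h * m * (4 * E 0) := Nat.mul_le_mul_left _ h2.2.1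
    have h8 : h * m * (3 * X) = h * m * X + 2 * h * m * X := by ring
    omega
  obtain ⟨r, hr, hrX⟩ := hblock
  have hle : (r + 1) * m < c := by
    calc (r + 1) * m ≤ 2 * h * m * m := Nat.mul_le_mul_right _ hr
      _ < c := hcard
  have hrm : (r + 1) * m = r * m + m := by ring
  rw [hrm] at hle hrX
  refine ⟨fun j => E (r * m + j), ?_, ?_, ?_⟩
  · intro j hj
    exact (hmem _).1 (hEJ _ (by omega))
  · intro j hj
    refine ⟨hEm (r * m + j) (r * m + (j + 1)) (by omega) (by omega), ?_⟩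
    intro i hi h1 h2
    have h1' : E (r * m + j) < i := h1
    have h2' : i < E (r * m + (j + 1)) := h2
    have g1 := (hmem _).1 (hEJ (r * m + j) (by omega))
    have g2 := (hmem _).1 (hEJ (r * m + (j + 1)) (by omega))
    refine hEn (r * m + j) (by omega) i ((hmem i).2 ⟨hi, by omega, by omega⟩) h1' ?_
    exact h2'
  · simpa using hrX

/-- the points of the lattice are in the interval -/
theorem lattice_in (X m h : ℕ) (s : ℕ → ℕ) (hs0 : X ≤ 4 * s 0 ∧ 4 * s 0 < 3 * X)
    (hmono : ∀ j ≤ m, s 0 ≤ s j ∧ s j ≤ s m) (hspan : 4 * h * m * (s m - s 0) ≤ X) (c : ℕ → ℤ)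
    (hc : ∀ j, |c j| ≤ h) :
    ∃ i : ℕ, i < X ∧ (i : ℤ) = s 0 + ∑ j ∈ range m, c j * ((s (j + 1) : ℤ) - s 0) := by
  have h0 := (hmono m le_rfl).1
  have h1 : |∑ j ∈ range m, c j * ((s (j + 1) : ℤ) - s 0)| ≤ m * (h * ((s m : ℤ) - s 0)) := by
    refine (abs_sum_le_sum_abs _ _).trans ?_
    have h2 : ∀ j ∈ range m, |c j * ((s (j + 1) : ℤ) - s 0)| ≤ h * ((s m : ℤ) - s 0) := by
      intro j hj
      rw [mem_range] at hj
      obtain ⟨g1, g2⟩ := hmono (j + 1) hj
      have g1' : (s 0 : ℤ) ≤ s (j + 1) := by exact_mod_cast g1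
      have g2' : (s (j + 1) : ℤ) ≤ s m := by exact_mod_cast g2
      rw [abs_mul, abs_of_nonneg (by linarith : (0 : ℤ) ≤ (s (j + 1) : ℤ) - s 0)]
      apply mul_le_mul (hc j) (by linarith) (by linarith)
      exact Int.natCast_nonneg h
    refine (sum_le_sum h2).trans ?_
    rw [sum_const, card_range, nsmul_eq_mul]
  have h3 : 4 * ((m : ℤ) * (h * ((s m : ℤ) - s 0))) ≤ X := by
    have h4 : ((4 * h * m * (s m - s 0) : ℕ) : ℤ) ≤ X := by exact_mod_cast hspan
    push_cast [Nat.cast_sub h0] at h4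
    linarith
  have h5 := abs_le.1 h1
  have g0 : (X : ℤ) ≤ 4 * s 0 := by exact_mod_cast hs0.1
  have g1 : 4 * (s 0 : ℤ) < 3 * X := by exact_mod_cast hs0.2
  obtain ⟨v, hv⟩ : ∃ v : ℤ, v = s 0 + ∑ j ∈ range m, c j * ((s (j + 1) : ℤ) - s 0) := ⟨_, rfl⟩
  have hv0 : 0 ≤ v := by rw [hv]; linarith [h5.1]
  have hvX : v < X := by rw [hv]; linarith [h5.2]
  refine ⟨v.toNat, by omega, ?_⟩
  rw [← hv]
  exact Int.toNat_of_nonneg hv0

/-- the next prime -/
theorem count_next (P Q : ℕ) (hP : P.Prime) (hPQ : P < Q)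
    (hno : ∀ y, P < y → y < Q → ¬ y.Prime) : Nat.count Nat.Prime Q = Nat.count Nat.Prime P + 1 := by
  induction Q, hPQ using Nat.le_induction with
  | base =>
    rw [Nat.count_succ, if_pos hP]
  | succ n hn ih =>
    rw [Nat.count_succ, if_neg (hno n hn (Nat.lt_succ_self n)), add_zero]
    exact ih fun y h1 h2 => hno y h1 (by omega)

/-- few prime factors -/
theorem few_factors (u R : ℕ) (w : ℝ) (hw : 1 < w) (hu : u ≠ 0)
    (h : ∀ r : ℕ, r.Prime → r ∣ u → w ≤ r) (hR : (u : ℝ) < w ^ (R + 1)) :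
    u.primeFactorsList.length ≤ R := by
  by_contra hcon
  push Not at hcon
  have h1 : w ^ u.primeFactorsList.length ≤ ((u.primeFactorsList.map (fun r : ℕ => (r : ℝ))).prod) := by
    have h2 : ∀ l : List ℕ, (∀ r ∈ l, w ≤ (r : ℝ)) → w ^ l.length ≤ (l.map (fun r : ℕ => (r : ℝ))).prod := by
      intro l
      induction l with
      | nil => intro _; simp
      | cons a l ih =>
        intro hl
        rw [List.length_cons, List.map_cons, List.prod_cons, pow_succ, mul_comm]
        apply mul_le_mul (hl a (by simp)) (ih fun r hr => hl r (by simp [hr])) (by positivity)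
        have := hl a (by simp)
        linarith
    apply h2
    intro r hr
    exact h r (Nat.prime_of_mem_primeFactorsList hr) (Nat.dvd_of_mem_primeFactorsList hr)
  have h3 : ((u.primeFactorsList.map (fun r : ℕ => (r : ℝ))).prod) = u := by
    have h4 := Nat.prod_primeFactorsList hu
    conv_rhs => rw [← h4]
    push_cast
    rfl
  rw [h3] at h1
  have h5 : w ^ (R + 1) ≤ w ^ u.primeFactorsList.length := pow_le_pow_right₀ hw.le hcon
  linarith

end Pool.Agent.W5h31.AE
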