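import Pool.Agent.W5h31.AE.AE6
import Pool.Agent.W5h31.AE.AE7

/-!
Consecutive primes which span lattices of almost primes.
-/

set_option autoImplicit false

namespace Pool.Agent.W5h31.AE

open Finset Filter Polynomial
open Pool.Agent.R498.MP (Gi Gi_sys)
open Pool.Agent.Y677.RSZ (Sys)

/-- the primes in increasing order -/
noncomputable def p (n : ℕ) : ℕ := Nat.nth Nat.Prime n

/-- the integers `u` in `(N, 2 N]` with at most `R` prime factors, all at least `N ^ (1 / R)` -/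
def AP (R N u : ℕ) : Prop :=
  N < u ∧ u ≤ 2 * N ∧ u.primeFactorsList.length ≤ R ∧
    ∀ r : ℕ, r.Prime → r ∣ u → (N : ℝ) ^ (1 / (R : ℝ)) ≤ r

/-- the lattice points near `p n` spanned by the next `m` primes are almost primes -/
def Good (q a m h R C N n : ℕ) : Prop :=
  N < p n ∧ p (n + m) ≤ 2 * N ∧ p (n + m) ≤ p n + C ∧ (∀ j ≤ m, p (n + j) ≡ a [MOD q]) ∧
  ∀ c : ℕ → ℤ, (∀ j, |c j| ≤ h) → ∃ u : ℕ, AP R N u ∧
    (u : ℤ) = p n + ∑ j ∈ range m, c j * ((p (n + j + 1) : ℤ) - p n)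

/-- the primes of a pattern, by index -/
theorem index_of (P : ℤ[X]) (W k : ℕ) (hW : 0 < W) (ε₁ : ℝ) (Hs : Finset (Fin (2 ^ k))) (N x : ℕ)
    (hx : Pat P W k ε₁ Hs N x) (m : ℕ) (s : ℕ → ℕ)
    (hs : ∀ j ≤ m, s j ∈ Hs.image Fin.val)
    (hs2 : ∀ j < m, s j < s (j + 1) ∧ ∀ i ∈ Hs.image Fin.val, s j < i → i < s (j + 1) → False) :
    ∀ j ≤ m, p (Nat.count Nat.Prime (x + W * s 0) + j) = x + W * s j := by
  obtain ⟨-, -, -, hpat⟩ := hx
  have hlt : ∀ j ≤ m, s j < 2 ^ k := by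
    intro j hj
    have h1 := hs j hj
    rw [mem_image] at h1
    obtain ⟨i, -, hi⟩ := h1
    rw [← hi]
    exact i.isLt
  have hpr : ∀ j ≤ m, (x + W * s j).Prime := by
    intro j hj
    have h1 := hs j hj
    rw [mem_image] at h1
    obtain ⟨i, hi, he⟩ := h1
    rw [hpat (W * s j) (Nat.mul_le_mul_left _ (hlt j hj).le)]
    exact ⟨i, hi, by rw [he]⟩
  have hcount : ∀ j ≤ m, Nat.count Nat.Prime (x + W * s j) =
      Nat.count Nat.Prime (x + W * s 0) + j := by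
    intro j
    induction j with
    | zero => intro _; rfl
    | succ j ih =>
      intro hj
      obtain ⟨h1, h2⟩ := hs2 j (by omega)
      rw [count_next (x + W * s j) (x + W * s (j + 1)) (hpr j (by omega))
        (by
          have := Nat.mul_lt_mul_of_pos_left h1 hW
          omega) ?_, ih (by omega)]
      · ring
      · intro y hy1 hy2 hyp
        obtain ⟨v, rfl⟩ : ∃ v, y = x + v := ⟨y - x, by omega⟩
        have h3 : W * s (j + 1) ≤ W * 2 ^ k := Nat.mul_le_mul_left _ (hlt (j + 1) hj).le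
        obtain ⟨i, hi, he⟩ := (hpat v (by omega)).1 hyp
        rw [he] at hy1 hy2
        exact h2 i (mem_image_of_mem _ hi)
          (lt_of_mul_lt_mul_left (a := W) (by omega) (Nat.zero_le _))
          (lt_of_mul_lt_mul_left (a := W) (by omega) (Nat.zero_le _))
  intro j hj
  rw [← hcount j hj]
  exact Nat.nth_count (hpr j hj)

theorem good_of (W k b q a m h R : ℕ) (hW : 0 < W) (hqW : q ∣ W) (hba : b ≡ a [MOD q]) (ε₁ : ℝ)
    (hε : 0 < ε₁) (hR : 2 / ε₁ ≤ R) (Hs : Finset (Fin (2 ^ k)))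
    (s : ℕ → ℕ) (hs : ∀ j ≤ m, s j ∈ Hs.image Fin.val ∧ 2 ^ k ≤ 4 * s j ∧ 4 * s j < 3 * 2 ^ k)
    (hs2 : ∀ j < m, s j < s (j + 1) ∧ ∀ i ∈ Hs.image Fin.val, s j < i → i < s (j + 1) → False)
    (hspan : 4 * h * m * (s m - s 0) ≤ 2 ^ k) (N x : ℕ) (hN : 2 ≤ N)
    (hx : Pat (X : ℤ[X]) W k ε₁ Hs N x) (hxb : x ≡ b [MOD W]) :
    Good q a m h R (W * 2 ^ k) N (Nat.count Nat.Prime (x + W * s 0)) := by
  have hidx := index_of X W k hW ε₁ Hs N x hx m s (fun j hj => (hs j hj).1) hs2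
  have hx' := hx
  obtain ⟨hx1, hx2, hx3, hx4⟩ := hx
  have hlt : ∀ j ≤ m, s j < 2 ^ k := fun j hj => by
    have := (hs j hj).2.2
    have h1 := (hs j hj).1
    rw [mem_image] at h1
    obtain ⟨i, -, hi⟩ := h1
    rw [← hi]
    exact i.isLt
  have hWs : ∀ j ≤ m, W * s j ≤ W * 2 ^ k := fun j hj => Nat.mul_le_mul_left _ (hlt j hj).le
  have h0 := hidx 0 (Nat.zero_le m)
  rw [add_zero] at h0
  have hmono : ∀ j ≤ m, s 0 ≤ s j ∧ s j ≤ s m := by
    have hstep : ∀ i j, i ≤ j → j ≤ m → s i ≤ s j := by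
      intro i j hij
      induction j, hij using Nat.le_induction with
      | base => intro _; exact le_rfl
      | succ j hij ih =>
        intro hj
        exact (ih (by omega)).trans (hs2 j (by omega)).1.le
    intro j hj
    exact ⟨hstep 0 j (Nat.zero_le j) hj, hstep j m hj le_rfl⟩
  have hN1 : (1 : ℝ) < N := by exact_mod_cast hN
  have hN0 : (0 : ℝ) < N := by linarith
  have hR0 : (0 : ℝ) < R := lt_of_lt_of_le (by positivity) hR
  have hεR : 2 ≤ ε₁ * R := by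
    rw [div_le_iff₀ hε] at hR
    linarith
  refine ⟨?_, ?_, ?_, ?_, ?_⟩
  · rw [h0]
    omega
  · rw [hidx m le_rfl]
    have := hWs m le_rfl
    omega
  · rw [hidx m le_rfl, h0]
    have := hWs m le_rfl
    omega
  · intro j hj
    rw [hidx j hj]
    have h1 : x + W * s j ≡ b + 0 [MOD q] := by
      apply Nat.ModEq.add (hxb.of_dvd hqW)
      exact (Nat.modEq_zero_iff_dvd).2 (hqW.mul_right _)
    rw [add_zero] at h1
    exact h1.trans hba
  · intro c hc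
    obtain ⟨i, hi1, hi2⟩ := lattice_in (2 ^ k) m h s (hs 0 (Nat.zero_le m)).2 hmono hspan c hc
    refine ⟨x + W * i, ⟨by omega, ?_, ?_, ?_⟩, ?_⟩
    · have : W * i ≤ W * 2 ^ k := Nat.mul_le_mul_left _ hi1.le
      omega
    · have hrough : ∀ r : ℕ, r.Prime → r ∣ x + W * i → (N : ℝ) ^ ε₁ ≤ r := by
        intro r hr hrd
        apply hx3 ⟨i, hi1⟩ r hr
        rw [eval_X]
        exact_mod_cast hrd
      apply few_factors (x + W * i) R ((N : ℝ) ^ ε₁) (Real.one_lt_rpow hN1 hε) (by omega) hrough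
      have h2 : W * i ≤ W * 2 ^ k := Nat.mul_le_mul_left _ hi1.le
      have h3 : x + W * i ≤ 2 * N := by omega
      have h4 : ((x + W * i : ℕ) : ℝ) ≤ 2 * N := by exact_mod_cast h3
      have h5 : (N : ℝ) ^ (2 : ℕ) ≤ ((N : ℝ) ^ ε₁) ^ R := by
        rw [← Real.rpow_natCast ((N : ℝ) ^ ε₁) R, ← Real.rpow_mul hN0.le, ← Real.rpow_natCast]
        apply Real.rpow_le_rpow_of_exponent_le hN1.le
        exact_mod_cast hεR
      have h6 : 1 < (N : ℝ) ^ ε₁ := Real.one_lt_rpow hN1 hε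
      have h7 : (2 : ℝ) ≤ N := by exact_mod_cast hN
      have h8 : (2 : ℝ) * N ≤ (N : ℝ) ^ (2 : ℕ) := by nlinarith
      have h9 : 0 < ((N : ℝ) ^ ε₁) ^ R := by positivity
      rw [pow_succ]
      nlinarith
    · intro r hr hrd
      have h1 : (N : ℝ) ^ ε₁ ≤ r := by
        apply hx3 ⟨i, hi1⟩ r hr
        rw [eval_X]
        exact_mod_cast hrd
      refine le_trans ?_ h1
      apply Real.rpow_le_rpow_of_exponent_le hN1.le
      rw [div_le_iff₀ hR0]
      linarith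
    · rw [h0]
      have h1 : ∀ j ∈ range m, c j * ((p (Nat.count Nat.Prime (x + W * s 0) + j + 1) : ℤ) -
          ((x + W * s 0 : ℕ) : ℤ)) = W * (c j * ((s (j + 1) : ℤ) - s 0)) := by
        intro j hj
        rw [mem_range] at hj
        have h2 := hidx (j + 1) hj
        rw [← add_assoc] at h2
        rw [h2]
        push_cast
        ring
      rw [sum_congr rfl h1, ← mul_sum]
      push_cast
      rw [hi2]
      ring

/-- there are not too many of them -/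
theorem fin_good (q a m h R C N : ℕ) : {n : ℕ | Good q a m h R C N n}.Finite := by
  apply (Set.finite_Iic (2 * N)).subset
  intro n hn
  obtain ⟨-, h2, -⟩ := hn
  have h3 : n + m < p (n + m) := by
    have h4 : n + m + 2 ≤ Nat.nth Nat.Prime (n + m) := Nat.add_two_le_nth_prime (n + m)
    unfold p
    omega
  simp only [Set.mem_Iic]
  omega

theorem main (m h q a : ℕ) (hm : 1 ≤ m) (hh : 1 ≤ h) (hq : Squarefree q) (ha : a.Coprime q) :
    ∃ R C : ℕ, 1 ≤ R ∧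
      (∀ᶠ N : ℕ in atTop, (N : ℝ) / Real.log N ^ C ≤
        ({n : ℕ | Good q a m h R C N n}.ncard : ℝ)) ∧
      ∀ l : ℕ, ∃ B : ℕ, ∀ᶠ N : ℕ in atTop, ∃ (n : ℕ → ℕ) (d : ℕ), 1 ≤ d ∧
        (d : ℝ) ≤ Real.log N ^ B ∧ ∀ i < l, Good q a m h R C N (n i) ∧
          ∀ j ≤ m, p (n i + j) = p (n 0 + j) + i * d := by
  classical
  -- the parameters
  obtain ⟨m₁, hm₁⟩ : ∃ m₁ : ℕ, m₁ = 2 * h * m * m := ⟨_, rfl⟩
  obtain ⟨k, hk⟩ : ∃ k : ℕ, 3 * (((4 * (m₁ + 1) - 1 : ℕ) : ℝ) + 1) * 1474560 ≤ 1 / 4 * (1 / 8) * k := by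
    obtain ⟨k, hk⟩ := exists_nat_ge (3 * (((4 * (m₁ + 1) - 1 : ℕ) : ℝ) + 1) * 1474560 * 32)
    refine ⟨k, ?_⟩
    linarith
  have hk2 : 2 ≤ k := by
    by_contra hcon
    push Not at hcon
    have h1 : (k : ℝ) ≤ 1 := by exact_mod_cast (by omega : k ≤ 1)
    have h2 : (0 : ℝ) ≤ ((4 * (m₁ + 1) - 1 : ℕ) : ℝ) := Nat.cast_nonneg _
    linarith
  obtain ⟨Q, hQ⟩ : ∃ Q, 2 ^ k = 4 * Q := by
    obtain ⟨k', rfl⟩ : ∃ k', k = k' + 2 := ⟨k - 2, by omega⟩
    exact ⟨2 ^ k', by ring⟩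
  have hQ0 : 0 < Q := by
    have : 0 < 2 ^ k := by positivity
    omega
  obtain ⟨I, hI⟩ : ∃ I : Finset (Fin (2 ^ k)), I = univ.filter
    (fun i : Fin (2 ^ k) => 2 ^ k ≤ 4 * (i : ℕ) ∧ 4 * (i : ℕ) < 3 * 2 ^ k) := ⟨_, rfl⟩
  have hIc : 2 ^ k ≤ 4 * I.card := by
    have h1 : (Ico Q (2 * Q)) ⊆ I.image Fin.val := by
      intro i hi
      rw [mem_Ico] at hi
      rw [mem_image]
      refine ⟨⟨i, by omega⟩, ?_, rfl⟩
      rw [hI, mem_filter]
      exact ⟨mem_univ _, by show 2 ^ k ≤ 4 * i; omega, by show 4 * i < 3 * 2 ^ k; omega⟩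
    have h2 := card_le_card h1
    rw [Nat.card_Ico] at h2
    have h3 : (I.image Fin.val).card ≤ I.card := card_image_le
    omega
  have hI2 : ((m₁ : ℝ) + 1) * 2 ^ k ≤ (((4 * (m₁ + 1) - 1 : ℕ) : ℝ) + 1) * I.card := by
    have h1 : (4 * (m₁ + 1) - 1) + 1 = 4 * (m₁ + 1) := by omega
    have h2 : (((4 * (m₁ + 1) - 1 : ℕ) : ℝ) + 1) = 4 * ((m₁ : ℝ) + 1) := by exact_mod_cast h1
    rw [h2]
    have h3 : (2 : ℝ) ^ k ≤ 4 * I.card := by exact_mod_cast hIc
    have h4 : (0 : ℝ) ≤ (m₁ : ℝ) + 1 := by positivity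
    nlinarith
  have hXe : (fun n : ℤ => (X : ℤ[X]).eval n) = Gi := by
    funext n
    rw [eval_X]
    rfl
  have hXsys : Sys 1 (fun n : ℤ => (X : ℤ[X]).eval n) := by rw [hXe]; exact Gi_sys
  obtain ⟨W, b, ε₁, κ, hW2, hqW, hba, hbW, hWp, hb, hε, hε24, hκ, hmany⟩ :=
    manyN X X_ne_zero 1 le_rfl hXsys (fun p _ n hn => by rw [eval_X]; exact hn)
      (fun n hn => by rw [eval_X]; exact hn) k m₁ (4 * (m₁ + 1) - 1) hk I hI2 q a hq
      (by
        intro r hr hrq hra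
        rw [eval_X] at hra
        have h1 : r ∣ a := by exact_mod_cast hra
        have h2 := Nat.dvd_gcd h1 hrq
        rw [ha] at h2
        exact hr.one_lt.ne' (Nat.dvd_one.1 h2))
  have hW0 : 0 < W := by omega
  obtain ⟨R, hR⟩ : ∃ R : ℕ, 2 / ε₁ ≤ R := exists_nat_ge _
  have hR1 : 1 ≤ R := by
    have h1 : (0 : ℝ) < R := lt_of_lt_of_le (by positivity) hR
    have h2 : 0 < R := by exact_mod_cast h1
    exact h2
  -- the runs of the primes
  have hrun : ∀ Hs : Finset (Fin (2 ^ k)), m₁ < (I ∩ Hs).card → ∃ s : ℕ → ℕ,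
      (∀ j ≤ m, s j ∈ Hs.image Fin.val ∧ 2 ^ k ≤ 4 * s j ∧ 4 * s j < 3 * 2 ^ k) ∧
      (∀ j < m, s j < s (j + 1) ∧ ∀ i ∈ Hs.image Fin.val, s j < i → i < s (j + 1) → False) ∧
      4 * h * m * (s m - s 0) ≤ 2 ^ k := by
    intro Hs hHs
    apply choose_run (2 ^ k) m h hm hh
    rw [← hm₁]
    refine hHs.trans_le ?_
    rw [← card_image_of_injective (I ∩ Hs) Fin.val_injective]
    apply card_le_card
    intro i hi
    rw [mem_image] at hi
    obtain ⟨i', hi', rfl⟩ := hi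
    rw [mem_inter, hI, mem_filter] at hi'
    rw [mem_filter, mem_image]
    exact ⟨⟨i', hi'.2, rfl⟩, hi'.1.2⟩
  obtain ⟨C₁, hC₁⟩ : ∃ C₁ : ℕ, C₁ = 2 * (1 * 2 ^ k) + 1 := ⟨_, rfl⟩
  rw [← hC₁] at hmany
  have hgmono : ∀ N n, Good q a m h R (W * 2 ^ k) N n → Good q a m h R (W * 2 ^ k + C₁ + 1) N n := by
    intro N n hg
    obtain ⟨g1, g2, g3, g4, g5⟩ := hg
    exact ⟨g1, g2, by omega, g4, g5⟩
  refine ⟨R, W * 2 ^ k + C₁ + 1, hR1, ?_, ?_⟩
  · filter_upwards [hmany, eventually_ge_atTop 3,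
      (Real.tendsto_log_atTop.comp (tendsto_natCast_atTop_atTop (R := ℝ))).eventually_ge_atTop (1 / κ),
      (Real.tendsto_log_atTop.comp (tendsto_natCast_atTop_atTop (R := ℝ))).eventually_ge_atTop 1]
      with N hN hN3 hlog hlog1
    simp only [Function.comp_apply] at hlog hlog1
    obtain ⟨Hs, hHs, A, hA1, -, -, hA4⟩ := hN
    obtain ⟨s, hs1, hs2, hs3⟩ := hrun Hs hHs
    have hidx : ∀ x ∈ A, p (Nat.count Nat.Prime (x + W * s 0)) = x + W * s 0 := by
      intro x hx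
      have := index_of X W k hW0 ε₁ Hs N x (hA4 x hx).1 m s (fun j hj => (hs1 j hj).1) hs2 0
        (Nat.zero_le m)
      rw [add_zero] at this
      exact this
    have hinj : Set.InjOn (fun x => Nat.count Nat.Prime (x + W * s 0)) (A : Set ℕ) := by
      intro x hx y hy hxy
      have h1 := hidx x hx
      have h2 := hidx y hy
      simp only at hxy
      rw [hxy, h2] at h1
      omega
    have hsub : (A.image (fun x => Nat.count Nat.Prime (x + W * s 0)) : Set ℕ) ⊆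
        {n : ℕ | Good q a m h R (W * 2 ^ k + C₁ + 1) N n} := by
      intro n hn
      rw [mem_coe, mem_image] at hn
      obtain ⟨x, hx, rfl⟩ := hn
      exact hgmono _ _ (good_of W k b q a m h R hW0 hqW hba ε₁ hε hR Hs s hs1 hs2 hs3 N x
        (by omega) (hA4 x hx).1 (hA4 x hx).2)
    have hle := Set.ncard_le_ncard hsub (fin_good q a m h R _ N)
    rw [Set.ncard_coe_finset, card_image_of_injOn hinj] at hle
    have hle' : (A.card : ℝ) ≤ ({n : ℕ | Good q a m h R (W * 2 ^ k + C₁ + 1) N n}.ncard : ℝ) := by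
      exact_mod_cast hle
    refine le_trans ?_ hle'
    have hl0 : 0 < Real.log N := by linarith
    rw [div_le_iff₀ (by positivity)]
    have h1 : (1 : ℝ) ≤ κ * Real.log N := by
      rw [div_le_iff₀ hκ] at hlog
      linarith
    have hN0 : (0 : ℝ) ≤ N := Nat.cast_nonneg N
    have h2 : Real.log N ^ (C₁ + 1) ≤ Real.log N ^ (W * 2 ^ k + C₁ + 1) :=
      pow_le_pow_right₀ hlog1 (by omega)
    calc (N : ℝ) ≤ κ * N * Real.log N := by nlinarith
      _ ≤ A.card * Real.log N ^ C₁ * Real.log N := mul_le_mul_of_nonneg_right hA1 hl0.le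
      _ = A.card * Real.log N ^ (C₁ + 1) := by ring
      _ ≤ _ := mul_le_mul_of_nonneg_left h2 (Nat.cast_nonneg _)
  · intro l
    obtain ⟨B, hB⟩ := narrow_of X X_ne_zero 1 hXsys k W b hW2 hbW hWp hb ε₁ κ hε hκ (l + 2) (by omega)
    refine ⟨B, ?_⟩
    filter_upwards [hmany, hB, eventually_ge_atTop 3] with N hN hBN hN3
    obtain ⟨Hs, hHs, A, -, hA2, hA3, hA4⟩ := hN
    obtain ⟨s, hs1, hs2, hs3⟩ := hrun Hs hHs
    obtain ⟨x, d, hd1, hd2, hxd⟩ := hBN Hs A hA2 hA3 hA4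
    have hidx : ∀ x ∈ A, ∀ j ≤ m, p (Nat.count Nat.Prime (x + W * s 0) + j) = x + W * s j := by
      intro x hx j hj
      exact index_of X W k hW0 ε₁ Hs N x (hA4 x hx).1 m s (fun j hj => (hs1 j hj).1) hs2 j hj
    refine ⟨fun i => Nat.count Nat.Prime (x + i * d + W * s 0), d, hd1, hd2, ?_⟩
    intro i hi
    have hxi := hxd i (by omega)
    refine ⟨hgmono _ _ (good_of W k b q a m h R hW0 hqW hba ε₁ hε hR Hs s hs1 hs2 hs3 N (x + i * d)
        (by omega) (hA4 _ hxi).1 (hA4 _ hxi).2), ?_⟩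
    intro j hj
    have h1 := hidx _ hxi j hj
    have h2 := hidx _ (hxd 0 (by omega)) j hj
    simp only
    rw [h1, h2]
    ring

end Pool.Agent.W5h31.AE
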